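import Pool.Agent.X244.BS.B

/-!
# A beam-splitter state of Fock-bounded pure states that is not extreme

For `ψ = (|0⟩ - 2√2 |2⟩)/3`, i.e. `ψ(x) = π^{-1/4} (1 - 4x²/3) e^{-x²/2}`, and the vacuum
`φ = |0⟩`, the beam-splitter state `σ(ψ, φ)` (the image of `|ψ⟩⟨ψ|` under the pure-loss channel of
transmissivity `1/2`) is `(13/18) ρ₁ + (5/18) ρ₂` with distinct finite-rank states `ρ₁`, `ρ₂` whose
Wigner functions are
`W_{ρ₁}(x,p) = ((2x²+2p²-1)² + 16 p²) e^{-x²-p²}/(13π)` and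
`W_{ρ₂}(x,p) = (2x²+2p²-1)² e^{-x²-p²}/(5π)`.
-/

set_option autoImplicit false

open Pool.Agent.X244.BS

namespace Pool.Agent.Results.MP_bdb089_mp.NonExtremeBeamSplitterState

/-- (the finite-rank elements of) the convex set of Wigner-positive states -/
def DPlus (K : ℝ → ℝ → ℂ) : Prop := IsState K ∧ WignerPositive K

/-- There are Fock-bounded unit vectors `ψ`, `φ` whose beam-splitter state is a Wigner-positive
state and a nontrivial convex combination of two distinct Wigner-positive states. -/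
theorem result : ∃ ψ φ : ℝ → ℂ, FockBounded ψ ∧ Normalised ψ ∧ FockBounded φ ∧ Normalised φ ∧
    DPlus (beamSplitter ψ φ) ∧
    ∃ (K₁ K₂ : ℝ → ℝ → ℂ) (t : ℝ), DPlus K₁ ∧ DPlus K₂ ∧ K₁ ≠ K₂ ∧ 0 < t ∧ t < 1 ∧
      ∀ x y, beamSplitter ψ φ x y = (t : ℂ) * K₁ x y + ((1 - t : ℝ) : ℂ) * K₂ x y := by
  have hp : √Real.pi ≠ 0 := sqrtpi.ne'
  have hbs : beamSplitter ψ₀ φ₀ = Kg (1 / 9) 2 8 2 := by
    funext x y
    exact bs_eq x y
  refine ⟨ψ₀, φ₀, vec_fock _ _ _ _, ψ₀_norm, vec_fock _ _ _ _, φ₀_norm, ?_,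
    Kg (1 / 13) 1 12 3, Kg (1 / 5) 1 4 1, 13 / 18, ?_, ?_, ?_, by norm_num, by norm_num, ?_⟩
  · rw [hbs]
    exact ⟨Kg_state _ _ _ _ (by norm_num) (by norm_num) (by norm_num) (by norm_num),
      Kg_pos _ _ _ _ (by norm_num) fun x p => by
        nlinarith [sq_nonneg (2 * x ^ 2 + 2 * p ^ 2 - 1), sq_nonneg p]⟩
  · exact ⟨Kg_state _ _ _ _ (by norm_num) (by norm_num) (by norm_num) (by norm_num),
      Kg_pos _ _ _ _ (by norm_num) fun x p => by
        nlinarith [sq_nonneg (2 * x ^ 2 + 2 * p ^ 2 - 1), sq_nonneg p]⟩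
  · exact ⟨Kg_state _ _ _ _ (by norm_num) (by norm_num) (by norm_num) (by norm_num),
      Kg_pos _ _ _ _ (by norm_num) fun x p => by
        nlinarith [sq_nonneg (2 * x ^ 2 + 2 * p ^ 2 - 1), sq_nonneg p]⟩
  · intro h
    have h0 := congrFun (congrFun h 0) 0
    unfold Kg at h0
    have h1 := Complex.ofReal_injective h0
    norm_num at h1
    field_simp at h1
    norm_num at h1
  · intro x y
    rw [bs_eq]
    unfold Kg
    rw [← Complex.ofReal_mul, ← Complex.ofReal_mul, ← Complex.ofReal_add]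
    congr 1
    field_simp
    ring

end Pool.Agent.Results.MP_bdb089_mp.NonExtremeBeamSplitterState
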